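import Pool.Agent.Helper84.Kos.Goals

/-!
Packet K-T2 of MP_315210_al: the descent lemma.
-/

set_option autoImplicit false

namespace Pool.Agent.Helper17.Kos

open Finset LieAlgebra
open Pool.Agent.Helper84.Kos

section ring

variable {R : Type*} [Ring R] [Algebra ℚ R]

/-- the inner derivation of `A` -/
noncomputable def DD (A : R) : Module.End ℚ R := LinearMap.mulLeft ℚ A - LinearMap.mulRight ℚ A

lemma DD_apply (A Y : R) : DD A Y = A * Y - Y * A := by
  unfold DD
  rw [LinearMap.sub_apply, LinearMap.mulLeft_apply, LinearMap.mulRight_apply]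

lemma DD_pow (A Y : R) (j : ℕ) : ((DD A) ^ j) Y =
    ∑ i ∈ range (j + 1), ((-1 : ℚ) ^ i * (j.choose i : ℚ)) • (A ^ (j - i) * Y * A ^ i) := by
  have hc : Commute (LinearMap.mulRight ℚ (-A) : Module.End ℚ R) (LinearMap.mulLeft ℚ A) :=
    (LinearMap.commute_mulLeft_right A (-A)).symm
  have e : DD A = LinearMap.mulRight ℚ (-A) + LinearMap.mulLeft ℚ A := by
    ext Y
    rw [DD_apply, LinearMap.add_apply, LinearMap.mulRight_apply, LinearMap.mulLeft_apply]
    rw [mul_neg]
    abel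
  rw [e, hc.add_pow, LinearMap.sum_apply]
  apply sum_congr rfl
  intro i _
  rw [LinearMap.pow_mulLeft, LinearMap.pow_mulRight]
  have e1 : ((j.choose i : ℕ) : Module.End ℚ R) = (j.choose i : ℚ) • 1 := by
    rw [Nat.cast_smul_eq_nsmul, nsmul_one]
  rw [e1, mul_smul_comm, mul_one, LinearMap.smul_apply, Module.End.mul_apply,
    LinearMap.mulRight_apply, LinearMap.mulLeft_apply, neg_pow A i]
  have e2 : ((-1 : R) ^ i) = ((-1 : ℚ) ^ i) • (1 : R) := by
    rcases Nat.even_or_odd i with h | h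
    · rw [h.neg_one_pow, h.neg_one_pow, one_smul]
    · rw [h.neg_one_pow, h.neg_one_pow, neg_smul, one_smul]
  rw [e2, smul_mul_assoc, one_mul, mul_smul_comm, smul_smul, mul_comm]

/-- the relations: multiply `D ^ m X = 0` by powers of `A` -/
lemma rel {A X : R} {m : ℕ} (h : ((DD A) ^ m) X = 0) (p q : ℕ) :
    ∑ i ∈ range (m + 1), ((-1 : ℚ) ^ i * (m.choose i : ℚ)) •
      (A ^ (p + (m - i)) * X * A ^ (i + q)) = 0 := by
  rw [DD_pow] at h
  have h2 : A ^ p * (∑ i ∈ range (m + 1), ((-1 : ℚ) ^ i * (m.choose i : ℚ)) •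
    (A ^ (m - i) * X * A ^ i)) * A ^ q = 0 := by rw [h]; simp
  rw [mul_sum, sum_mul] at h2
  rw [← h2]
  apply sum_congr rfl
  intro i _
  rw [mul_smul_comm, smul_mul_assoc, pow_add, pow_add]
  simp only [mul_assoc]

lemma pow_zero_of_le {A : R} {m : ℕ} (hA : A ^ m = 0) {j : ℕ} (h : m ≤ j) : A ^ j = 0 :=
  pow_eq_zero_of_le h hA

/-- F1 -/
lemma F1 {A X : R} {n : ℕ} (hA : A ^ (n + 4) = 0) (h : ((DD A) ^ (n + 4)) X = 0) :
    A ^ (n + 3) * X * A ^ (n + 3) = 0 := by
  have h1 := rel h (n + 2) 0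
  rw [sum_range_succ, sum_range_succ, sum_eq_zero] at h1
  · have e1 : A ^ (n + 4 + 0) = 0 := pow_zero_of_le hA (by omega)
    have e2 : n + 2 + (n + 4 - (n + 3)) = n + 3 := by omega
    rw [e1, mul_zero, smul_zero, add_zero, zero_add, e2, add_zero] at h1
    rcases smul_eq_zero.1 h1 with h2 | h2
    · exfalso
      rw [mul_eq_zero] at h2
      rcases h2 with h2 | h2
      · exact pow_ne_zero _ (by norm_num) h2
      · rw [Nat.cast_eq_zero] at h2
        exact (Nat.choose_pos (by omega)).ne' h2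
    · exact h2
  · intro i hi
    rw [mem_range] at hi
    rw [pow_zero_of_le hA (by omega : n + 4 ≤ n + 2 + (n + 4 - i)), zero_mul, zero_mul, smul_zero]

/-- F2 -/
lemma F2 {A X : R} {n : ℕ} (hA : A ^ (n + 4) = 0) (h : ((DD A) ^ (n + 4)) X = 0) :
    A ^ (n + 3) * X * A ^ (n + 2) = 0 ∧ A ^ (n + 2) * X * A ^ (n + 3) = 0 := by
  have h1 := rel h (n + 1) 0
  rw [sum_range_succ, sum_range_succ, sum_range_succ, sum_eq_zero] at h1
  swap
  · intro i hi
    rw [mem_range] at hi
    rw [pow_zero_of_le hA (by omega : n + 4 ≤ n + 1 + (n + 4 - i)), zero_mul, zero_mul, smul_zero]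
  have h2 := rel h 0 (n + 1)
  rw [sum_range_succ', sum_range_succ', sum_range_succ', sum_eq_zero] at h2
  swap
  · intro i _
    rw [pow_zero_of_le hA (by omega : n + 4 ≤ i + 1 + 1 + 1 + (n + 1)), mul_zero, smul_zero]
  obtain ⟨u, hu⟩ : ∃ u, u = A ^ (n + 3) * X * A ^ (n + 2) := ⟨_, rfl⟩
  obtain ⟨v, hv⟩ : ∃ v, v = A ^ (n + 2) * X * A ^ (n + 3) := ⟨_, rfl⟩
  have e1 : A ^ (n + 4 + 0) = 0 := pow_zero_of_le hA (by omega)
  have e2 : n + 1 + (n + 4 - (n + 3)) = n + 2 := by omega
  have e3 : n + 1 + (n + 4 - (n + 2)) = n + 3 := by omega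
  rw [e1, mul_zero, smul_zero, add_zero, zero_add, e2, e3, add_zero, add_zero, ← hu, ← hv] at h1
  have f1 : A ^ (0 + (n + 4 - 0)) = 0 := pow_zero_of_le hA (by omega)
  have f2 : 0 + (n + 4 - (0 + 1)) = n + 3 := by omega
  have f3 : 0 + (n + 4 - (0 + 1 + 1)) = n + 2 := by omega
  have f4 : 0 + 1 + (n + 1) = n + 2 := by omega
  have f5 : 0 + 1 + 1 + (n + 1) = n + 3 := by omega
  rw [f1, zero_mul, zero_mul, smul_zero, add_zero, zero_add, f2, f3, f4, f5, ← hu, ← hv] at h2
  have g1 : ((n + 4).choose (n + 3) : ℚ) = n + 4 := by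
    rw [Nat.choose_succ_self_right (n + 3)]
    push_cast
    ring
  have g2 : ((n + 4).choose (n + 2) : ℚ) = (n + 4) * (n + 3) / 2 := by
    rw [Nat.choose_symm_of_eq_add (show n + 4 = (n + 2) + 2 by omega), Nat.cast_choose_two]
    push_cast
    ring
  have g3 : ((n + 4).choose (0 + 1) : ℚ) = n + 4 := by
    simp
  have g4 : ((n + 4).choose (0 + 1 + 1) : ℚ) = (n + 4) * (n + 3) / 2 := by
    rw [show 0 + 1 + 1 = 2 by omega, Nat.cast_choose_two]
    push_cast
    ring
  rw [g1, g2] at h1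
  rw [g3, g4] at h2
  obtain ⟨α, hα⟩ : ∃ α : ℚ, α = (n : ℚ) + 4 := ⟨_, rfl⟩
  obtain ⟨β, hβ⟩ : ∃ β : ℚ, β = ((n : ℚ) + 4) * (n + 3) / 2 := ⟨_, rfl⟩
  rw [← hβ, ← hα] at h1 h2
  have hs : ((-1 : ℚ) ^ (n + 2)) * ((-1 : ℚ) ^ (n + 2)) = 1 := by
    rw [← mul_pow]; norm_num
  have h1' : β • u - α • v = 0 := by
    have h3 : ((-1 : ℚ) ^ (n + 2)) • (((-1 : ℚ) ^ (n + 2) * β) • u +
      ((-1 : ℚ) ^ (n + 3) * α) • v) = 0 := by rw [h1, smul_zero]
    rw [smul_add, smul_smul, smul_smul, ← mul_assoc, ← mul_assoc, hs, one_mul,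
      show (-1 : ℚ) ^ (n + 3) = - (-1 : ℚ) ^ (n + 2) by rw [pow_succ]; ring, mul_neg, hs,
      neg_one_mul, neg_smul, ← sub_eq_add_neg] at h3
    exact h3
  have h2' : β • v - α • u = 0 := by
    have e : ((-1 : ℚ) ^ (0 + 1 + 1) * β) • v + ((-1 : ℚ) ^ (0 + 1) * α) • u =
        β • v - α • u := by
      norm_num
      rw [sub_eq_add_neg]
    rw [← e]
    exact h2
  have hn : (0 : ℚ) ≤ n := Nat.cast_nonneg n
  have hαpos : 0 < α := by rw [hα]; linarith
  have hαβ : α < β := by
    rw [hα, hβ]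
    nlinarith
  have hne : β * β - α * α ≠ 0 := by
    have : 0 < β * β - α * α := by nlinarith
    exact this.ne'
  have hu0 : u = 0 := by
    have : (β * β - α * α) • u = 0 := by
      have e : (β * β - α * α) • u = β • (β • u - α • v) + α • (β • v - α • u) := by module
      rw [e, h1', h2', smul_zero, smul_zero, add_zero]
    exact (smul_eq_zero.1 this).resolve_left hne
  have hv0 : v = 0 := by
    have : (β * β - α * α) • v = 0 := by
      have e : (β * β - α * α) • v = α • (β • u - α • v) + β • (β • v - α • u) := by module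
      rw [e, h1', h2', smul_zero, smul_zero, add_zero]
    exact (smul_eq_zero.1 this).resolve_left hne
  rw [← hu, ← hv]
  exact ⟨hu0, hv0⟩

/-- F3 -/
lemma F3 {A X Z : R} {n : ℕ} (hA : A ^ (n + 4) = 0) (h : ((DD A) ^ (n + 4)) X = 0)
    (hZ : ((DD A) ^ (n + 4)) Z = 0) :
    A ^ (n + 3) * X * A ^ (n + 1) * Z * A ^ (n + 3) = 0 := by
  have h1 := rel h n 0
  rw [sum_range_succ, sum_range_succ, sum_range_succ, sum_range_succ, sum_eq_zero] at h1
  swap
  · intro i hi
    rw [mem_range] at hi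
    rw [pow_zero_of_le hA (by omega : n + 4 ≤ n + (n + 4 - i)), zero_mul, zero_mul, smul_zero]
  have e1 : A ^ (n + 4 + 0) = 0 := pow_zero_of_le hA (by omega)
  have e2 : n + (n + 4 - (n + 3)) = n + 1 := by omega
  have e3 : n + (n + 4 - (n + 2)) = n + 2 := by omega
  have e4 : n + (n + 4 - (n + 1)) = n + 3 := by omega
  rw [e1, mul_zero, smul_zero, add_zero, zero_add, e2, e3, e4, add_zero, add_zero, add_zero] at h1
  have h2 : (((-1 : ℚ) ^ (n + 1) * ((n + 4).choose (n + 1) : ℚ)) • (A ^ (n + 3) * X * A ^ (n + 1)) +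
      ((-1 : ℚ) ^ (n + 2) * ((n + 4).choose (n + 2) : ℚ)) • (A ^ (n + 2) * X * A ^ (n + 2)) +
      ((-1 : ℚ) ^ (n + 3) * ((n + 4).choose (n + 3) : ℚ)) • (A ^ (n + 1) * X * A ^ (n + 3))) *
      (Z * A ^ (n + 3)) = 0 := by rw [h1, zero_mul]
  have g1 : A ^ (n + 2) * X * A ^ (n + 2) * (Z * A ^ (n + 3)) = 0 := by
    rw [mul_assoc _ (A ^ (n + 2)), ← mul_assoc (A ^ (n + 2)), (F2 hA hZ).2, mul_zero]
  have g2 : A ^ (n + 1) * X * A ^ (n + 3) * (Z * A ^ (n + 3)) = 0 := by
    rw [mul_assoc _ (A ^ (n + 3)), ← mul_assoc (A ^ (n + 3)), F1 hA hZ, mul_zero]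
  rw [add_mul, add_mul, smul_mul_assoc, smul_mul_assoc, smul_mul_assoc, g1, g2, smul_zero,
    smul_zero, add_zero, add_zero] at h2
  rcases smul_eq_zero.1 h2 with h3 | h3
  · exfalso
    rw [mul_eq_zero] at h3
    rcases h3 with h3 | h3
    · exact pow_ne_zero _ (by norm_num) h3
    · rw [Nat.cast_eq_zero] at h3
      exact (Nat.choose_pos (by omega)).ne' h3
  · rw [← h3]
    simp only [mul_assoc]

/-- the reduction of a product with `A ^ (n + 3 - d) * B` -/
lemma key {A X : R} {n : ℕ} (hA : A ^ (n + 4) = 0) (U W : R) (d : ℕ) (hd : d ≤ n + 3)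
    (h : ∀ e ≤ d, U * (A ^ (n + 3 - e) * X * A ^ (n + 3 - (d - e))) * W = 0) :
    U * (A ^ (n + 3 - d) * ((DD A) ^ (n + 3)) X) * W = 0 := by
  rw [DD_pow, mul_sum, mul_sum, sum_mul]
  apply sum_eq_zero
  intro i hi
  rw [mem_range] at hi
  rw [mul_smul_comm, mul_smul_comm, smul_mul_assoc, ← mul_assoc (A ^ (n + 3 - d)),
    ← mul_assoc (A ^ (n + 3 - d)), ← pow_add]
  rcases Nat.lt_or_ge i (n + 3 - d) with h1 | h1
  · rw [pow_zero_of_le hA (by omega : n + 4 ≤ n + 3 - d + (n + 3 - i))]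
    simp
  · have h2 := h (i - (n + 3 - d)) (by omega)
    have e1 : n + 3 - d + (n + 3 - i) = n + 3 - (i - (n + 3 - d)) := by omega
    have e2 : n + 3 - (d - (i - (n + 3 - d))) = i := by omega
    rw [e1]
    rw [e2] at h2
    rw [h2, smul_zero]

theorem descent {A X : R} {n : ℕ} (hA : A ^ (n + 4) = 0) (h : ((DD A) ^ (n + 4)) X = 0) :
    (((DD A) ^ (n + 3)) X) ^ (n + 3) = 0 := by
  obtain ⟨B, hB⟩ : ∃ B, B = ((DD A) ^ (n + 3)) X := ⟨_, rfl⟩
  have f1 := F1 hA h
  obtain ⟨f2, f2'⟩ := F2 hA h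
  have f3 := F3 hA h h
  -- d = 0
  have P0 : A ^ (n + 3) * B = 0 := by
    have := key hA (1 : R) 1 (X := X) 0 (by omega) (by
      intro e he
      obtain rfl : e = 0 := by omega
      simp only [Nat.sub_zero, one_mul, mul_one]
      exact f1)
    simpa [← hB] using this
  have main : ∀ d : ℕ, 1 ≤ d → d ≤ n + 3 → (A ^ (n + 3 - d) * B ^ d = 0 ∧
      (2 ≤ d → A ^ (n + 3) * X * A ^ (n + 3 - d) * B ^ (d - 1) = 0)) := by
    intro d
    induction d using Nat.strong_induction_on with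
    | _ d ih =>
      intro h1 h2
      -- general consequences of the induction hypothesis
      have hlow : ∀ f j : ℕ, f < d → f ≤ j → 1 ≤ j → A ^ (n + 3 - f) * B ^ j = 0 := by
        intro f j hf hfj hj
        rcases Nat.eq_zero_or_pos f with h0 | h0
        · subst h0
          obtain ⟨j', rfl⟩ : ∃ j', j = j' + 1 := ⟨j - 1, by omega⟩
          rw [Nat.sub_zero, pow_succ' B, ← mul_assoc, P0, zero_mul]
        · obtain ⟨t, rfl⟩ : ∃ t, j = f + t := ⟨j - f, by omega⟩
          rw [pow_add, ← mul_assoc, (ih f hf h0 (by omega)).1, zero_mul]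
      have hQ : 2 ≤ d → A ^ (n + 3) * X * A ^ (n + 3 - d) * B ^ (d - 1) = 0 := by
        intro hd2
        obtain ⟨t, rfl⟩ : ∃ t, d = t + 2 := ⟨d - 2, by omega⟩
        have := key hA (A ^ (n + 3) * X) (B ^ t) (X := X) (t + 2) h2 (by
          intro e he
          rcases Nat.lt_or_ge e 2 with he2 | he2
          · have : e = 0 ∨ e = 1 := by omega
            rcases this with rfl | rfl
            · rw [Nat.sub_zero, ← mul_assoc, ← mul_assoc, f1]
              simp
            · rw [show n + 3 - 1 = n + 2 by omega, ← mul_assoc, ← mul_assoc, f2]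
              simp
          · rcases Nat.eq_zero_or_pos t with ht | ht
            · subst ht
              obtain rfl : e = 2 := by omega
              rw [pow_zero, mul_one, show n + 3 - 2 = n + 1 by omega,
                show n + 3 - (0 + 2 - 2) = n + 3 by omega, ← mul_assoc, ← mul_assoc]
              exact f3
            · have h3 := hlow (t + 2 - e) t (by omega) (by omega) ht
              rw [mul_assoc, mul_assoc _ _ (B ^ t), h3, mul_zero, mul_zero])
        rw [← hB] at this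
        rw [show t + 2 - 1 = t + 1 by omega, pow_succ' B, ← mul_assoc]
        rw [← this]
        simp only [mul_assoc]
      refine ⟨?_, hQ⟩
      obtain ⟨t, rfl⟩ : ∃ t, d = t + 1 := ⟨d - 1, by omega⟩
      have := key hA (1 : R) (B ^ t) (X := X) (t + 1) h2 (by
        intro e he
        rw [one_mul]
        rcases Nat.eq_zero_or_pos e with he0 | he0
        · subst he0
          rw [Nat.sub_zero, Nat.sub_zero]
          rcases Nat.eq_zero_or_pos t with ht | ht
          · subst ht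
            rw [pow_zero, mul_one, show n + 3 - (0 + 1) = n + 2 by omega]
            exact f2
          · have := hQ (by omega)
            rw [show t + 1 - 1 = t by omega] at this
            exact this
        · rcases Nat.eq_zero_or_pos t with ht | ht
          · subst ht
            obtain rfl : e = 1 := by omega
            rw [pow_zero, mul_one, show n + 3 - 1 = n + 2 by omega,
              show n + 3 - (0 + 1 - 1) = n + 3 by omega]
            exact f2'
          · have h3 := hlow (t + 1 - e) t (by omega) (by omega) ht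
            rw [mul_assoc, h3, mul_zero])
      rw [← hB, one_mul] at this
      rw [pow_succ' B, ← mul_assoc]
      exact this
  have := (main (n + 3) (by omega) le_rfl).1
  rw [Nat.sub_self, pow_zero, one_mul] at this
  rw [← hB]
  exact this

end ring

theorem stmtT2 : StmtT2 := by
  intro L _ _ a x m hm ha
  obtain ⟨n, rfl⟩ : ∃ n, m = n + 4 := ⟨m - 4, by omega⟩
  have had : ∀ j : ℕ, ∀ y : L, ad ℚ L ((ad ℚ L a ^ j) y) = ((DD (ad ℚ L a)) ^ j) (ad ℚ L y) := by
    intro j
    induction j with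
    | zero => intro y; simp
    | succ j ih =>
      intro y
      rw [pow_succ', pow_succ', Module.End.mul_apply, Module.End.mul_apply, ← ih, DD_apply]
      ext w
      rw [LinearMap.sub_apply, Module.End.mul_apply, Module.End.mul_apply, ad_apply, ad_apply,
        ad_apply, ad_apply, ad_apply, ad_apply]
      exact lie_lie _ _ _
  rw [show n + 4 - 1 = n + 3 by omega, had]
  apply descent ha
  rw [← had, ha]
  simp

end Pool.Agent.Helper17.Kos
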